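import Pool.Agent.H641.Final

/-!
# MP_9b7d8a_lc, Q1: full-Miller measurability without an inaccessible cardinal

The answer to Q1 is positive: for every uncountable regular `κ` with `κ ^ (< κ) = κ`, adding more
than `κ` many Cohen subsets of `κ` forces that `κ` is regular with `κ ^ (< κ) = κ` and that every
subset of `κ ^ κ` definable by a first-order formula from a parameter in `On ^ κ` is full-Miller
measurable. Starting from a model of ZFC + GCH (such as `L`) no large cardinal is used. Without
any hypothesis on `κ ^ (< κ)` the same holds for the forcing with the functions of size less than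
`κ` from a large set to a set `W` with `#W ^ (< κ) = #W`.

Conventions, as in the usual treatment of forcing:

* `Kap K`: the linear order `K` is a well-order whose order type is an uncountable regular
  cardinal (`κ`, with `K = κ.ord.ToType`). Its elements are the ordinals below `κ`.
* `Cond K J W`: the set of the functions of size less than `κ` from a subset of `J` to `W`,
  ordered by reverse inclusion. So `Cond K J K` adds `#J` many functions from `κ` to `κ` (one for
  each block of `κ` places), and is the usual forcing `Add(κ, #J)` up to the usual recoding.
* A sentence of the forcing language is the set of the conditions which force it (`Force.lean`).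
* `Name P` is the class of all names for sets, `Fml` the formulas of set theory, and
  `sat φ v` the set of the conditions which force `φ` about the sets named by `v` (`Names.lean`).
* `NoNew` says that no new sequences of length less than `κ` are added. So the nodes of
  `κ ^ (< κ)` of the extension are the nodes of the ground model (`Nd K K`), a tree is named by a
  map `T : Nd K K → Set P`, and a function from `κ` to `κ` by a map `z : K → K → Set P`.
* `FM T`: `T` is a full Miller tree (`Tree.lean`). `InBr z T`: `z` is a branch of `T`.
* `AllMeas`: for every formula `φ`, every ordinal `θ` and every function `y : κ → θ` of the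
  extension, the set of all `x` with `φ(x, y)` is full-Miller measurable (`Final.lean`).
-/

set_option linter.unusedSectionVars false

namespace Pool.Agent.Results.MP_9b7d8a_lc.CohenFullMiller

open Cardinal Set Pool.Agent.H641

universe u

/-- In the extension by `P` there are no new sequences of length less than `K`, `K` is regular
with `K ^ (< K) = K`, and every subset of `K ^ K` definable from a parameter in `On ^ K` is
full-Miller measurable. -/
noncomputable def Good (K : Type u) [LinearOrder K] [Kap K] (P : Type u) [Preorder P] : Set P :=
  fand (fall fun X : Type u => NoNew K P X)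
    (fand (StaysRegular K P) (fand (FewNodes K P) (AllMeas K P)))

theorem good {K J W : Type u} [LinearOrder K] [Kap K] (hW : Big K W) (hJ : #W < #J)
    (p : Cond K J W) : p ∈ Good K (Cond K J W) :=
  ⟨fun X => noNew X p, staysRegular p, fewNodes hW hJ p, allMeas hW hJ p⟩

theorem kap {κ : Cardinal.{u}} (h : κ.IsRegular) (h' : ℵ₀ < κ) : Kap κ.ord.ToType where
  wf := inferInstance
  reg := by rwa [mk_ord_toType]
  small := fun a => by
    rw [mk_ord_toType]
    exact mk_Iio_toType_ord_lt a
  unc := by rwa [mk_ord_toType]

theorem big_self {K : Type u} [LinearOrder K] [Kap K] (h : #K ^< #K = #K) : Big K K where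
  le := le_rfl
  pow := fun a => by
    rw [mk_arrow, lift_id, lift_id]
    exact (le_powerlt _ (Kap.small a)).trans h.le

theorem big_fun (K : Type u) [LinearOrder K] [Kap K] : Big K (K → K) where
  le := by
    rw [mk_arrow, lift_id]
    have h1 : (2 : Cardinal.{u}) ≤ #K := (natCast_lt_aleph0 (n := 2)).le.trans mk_K_pos
    exact (cantor _).le.trans (power_le_power_right h1)
  pow := fun a => by
    rw [mk_arrow, lift_id, lift_id, mk_arrow, lift_id, ← power_mul]
    have h1 : #K * #(Iio a) ≤ #K * #K := mul_le_mul_right (Kap.small a).le _
    have h2 : #K * #K = #K := mul_eq_self mk_K_pos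
    have h3 : #K ≠ 0 := by
      intro h
      have h4 := mk_K_pos (K := K)
      rw [h] at h4
      exact absurd h4 (not_le.2 aleph0_pos)
    exact power_le_power_left h3 (h1.trans h2.le)

theorem result :
    (∀ κ : Cardinal.{u}, κ.IsRegular → ℵ₀ < κ → Kap κ.ord.ToType) ∧
    (∀ (K : Type u) [LinearOrder K] [Kap K], #K ^< #K = #K →
      ∀ J : Type u, #K < #J → ∀ p : Cond K J K, p ∈ Good K (Cond K J K)) ∧
    (∀ (K : Type u) [LinearOrder K] [Kap K], ∃ W : Type u,
      ∀ J : Type u, #W < #J → ∀ p : Cond K J W, p ∈ Good K (Cond K J W)) :=
  ⟨fun _ h h' => kap h h', fun _ _ _ h _ hJ p => good (big_self h) hJ p,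
    fun K _ _ => ⟨K → K, fun _ hJ p => good (big_fun K) hJ p⟩⟩

end Pool.Agent.Results.MP_9b7d8a_lc.CohenFullMiller
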